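import Pool.Agent.Helper62.BM.LStm
import Pool.Agent.Helper18.BM.HK

/-!
# The Hasse-Witt functionals of a squarefree polynomial of odd degree are independent
-/

set_option autoImplicit false

open Polynomial Matrix Finset

namespace Pool.Agent.Helper18.BL

open Pool.Agent.Helper62.BM Pool.Agent.Helper18.BM

section

variable {K : Type} [Field K] (p : ℕ) [Fact p.Prime] [CharP K p]

omit [Fact p.Prime] in
/-- divisibility by powers of `h` -/
lemma pow_dvd_of_der {h : K[X]} (hsep : h.Separable) (hne : h ≠ 0) :
    ∀ (k s : ℕ) (A : K[X]), 1 ≤ s → s + k ≤ p → derivative (h ^ s * A) = 0 → h ^ k ∣ A := by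
  intro k
  induction k with
  | zero => intro s A _ _ _; simp
  | succ k ih =>
    intro s A hs hk hd
    obtain ⟨u, rfl⟩ : ∃ u, s = u + 1 := ⟨s - 1, by omega⟩
    rw [derivative_mul, derivative_pow] at hd
    simp only [Nat.add_sub_cancel] at hd
    have h2 : h ^ u * (C (((u + 1 : ℕ) : K)) * (derivative h * A) + h * derivative A) = 0 := by
      rw [← hd]
      ring
    have h3 := (mul_eq_zero.mp h2).resolve_left (pow_ne_zero _ hne)
    have h5 : ((u + 1 : ℕ) : K) ≠ 0 := by
      rw [Ne, CharP.cast_eq_zero_iff K p]
      intro hdvd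
      have := Nat.le_of_dvd (Nat.succ_pos u) hdvd
      omega
    have h6 : h ∣ C (((u + 1 : ℕ) : K)) * (derivative h * A) := by
      refine ⟨-derivative A, ?_⟩
      linear_combination h3
    have h7 : h ∣ derivative h * A := by
      have hu : IsUnit (C (((u + 1 : ℕ) : K))) := isUnit_C.mpr h5.isUnit
      exact (hu.dvd_mul_left).mp h6
    have h8 : h ∣ A := (IsCoprime.dvd_of_dvd_mul_left hsep h7)
    obtain ⟨B, rfl⟩ := h8
    have h9 : h ^ k ∣ B := by
      refine ih (u + 1 + 1) B (by omega) (by omega) ?_
      have : h ^ (u + 1 + 1) * B = h ^ (u + 1) * (h * B) := by ring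
      rw [this, derivative_mul, derivative_pow]
      simp only [Nat.add_sub_cancel]
      exact hd
    rw [pow_succ']
    exact mul_dvd_mul_left h h9

theorem core {g q : ℕ} (hp2 : p = 2 * q + 1) (hg : 1 ≤ g) (hgq : g < q) (h : K[X])
    (hdeg : h.natDegree = 2 * g + 1) (hsep : h.Separable) (P : K[X])
    (hP' : derivative P = 0) (hPd : P.natDegree + p ≤ p * g)
    (hΛ : ∀ l < 2 * g, (X ^ l * (h ^ q * P)).coeff (p * g - 1) = 0) : P = 0 := by
  have hp : p.Prime := Fact.out
  have hp0 : 0 < p := hp.pos
  have hne : h ≠ 0 := by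
    intro h0
    rw [h0, natDegree_zero] at hdeg
    omega
  have hlc : h.leadingCoeff ≠ 0 := leadingCoeff_ne_zero.mpr hne
  set N := p * g with hN
  set M := (2 * g - 1) * q with hM
  have hMe : M + q = 2 * g * q := by
    rw [hM]
    obtain ⟨g', rfl⟩ : ∃ g', g = g' + 1 := ⟨g - 1, by omega⟩
    have : 2 * (g' + 1) - 1 = 2 * g' + 1 := by omega
    rw [this]
    ring
  have hNe : N = 2 * g * q + g := by
    rw [hN, hp2]
    ring
  have hpN : p ∣ N := dvd_mul_right _ _
  have hN0 : 0 < N := Nat.mul_pos hp0 hg
  set F : K[X] := h ^ q with hF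
  have hFne : F ≠ 0 := pow_ne_zero _ hne
  have hFd : F.natDegree = 2 * g * q + q := by
    rw [hF, natDegree_pow, hdeg]
    ring
  have hFlc : F.leadingCoeff ≠ 0 := leadingCoeff_ne_zero.mpr hFne
  set G : K[X] := F * P with hG
  -- step 2
  have step2 : ∀ l, l < q + g → (X ^ l * G).coeff (N - 1) = 0 := by
    intro l
    induction l using Nat.strong_induction_on with
    | _ l ih =>
      intro hl
      by_cases hln : l < 2 * g
      · exact hΛ l hln
      push Not at hln
      obtain ⟨j, rfl⟩ : ∃ j, l = j + 2 * g := ⟨l - 2 * g, by omega⟩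
      set W0 : K[X] := X ^ j * h ^ (q + 1) with hW0
      have hW0ne : W0 ≠ 0 := mul_ne_zero (pow_ne_zero _ X_ne_zero) (pow_ne_zero _ hne)
      have hW0d : W0.natDegree = (j + 2 * g) + F.natDegree + 1 := by
        rw [hW0, natDegree_mul (pow_ne_zero _ X_ne_zero) (pow_ne_zero _ hne), natDegree_X_pow,
          natDegree_pow, hdeg, hFd]
        ring
      obtain ⟨u, hu⟩ : F ∣ derivative W0 := by
        refine ⟨derivative (X ^ j) * h + X ^ j * (C (((q + 1 : ℕ) : K)) * derivative h), ?_⟩
        rw [hW0, derivative_mul, derivative_pow (p := h)]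
        simp only [Nat.add_sub_cancel]
        rw [hF]
        ring
      have hud : u.natDegree ≤ j + 2 * g := by
        have hdd : (derivative W0).natDegree ≤ j + 2 * g + F.natDegree := by
          refine (natDegree_derivative_le W0).trans ?_
          rw [hW0d]
          omega
        by_cases hu0 : u = 0
        · rw [hu0]
          simp
        · rw [hu, natDegree_mul hFne hu0] at hdd
          omega
      have hne' : u.coeff (j + 2 * g) ≠ 0 := by
        have h1 := coeff_mul_add_eq_of_natDegree_le (le_refl F.natDegree) hud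
        rw [← hu, coeff_derivative] at h1
        intro h0
        rw [h0, mul_zero] at h1
        have h2 : F.natDegree + (j + 2 * g) + 1 = W0.natDegree := by
          rw [hW0d]
          omega
        rw [h2] at h1
        rcases mul_eq_zero.mp h1 with h3 | h3
        · exact hW0ne (leadingCoeff_eq_zero.mp h3)
        · have h4 : ((F.natDegree + (j + 2 * g) + 1 : ℕ) : K) = 0 := by
            push_cast
            push_cast at h3
            exact h3
          rw [CharP.cast_eq_zero_iff K p] at h4
          have h5 : F.natDegree + (j + 2 * g) + 1 = p * g + (j + g + q + 1) := by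
            rw [hFd, ← hN, hNe]
            omega
          rw [h5] at h4
          have h6 : p ∣ j + g + q + 1 := (Nat.dvd_add_right (dvd_mul_right p g)).mp h4
          have := Nat.le_of_dvd (Nat.succ_pos _) h6
          omega
      have hsum : u * G = ∑ k ∈ range (j + 2 * g + 1), C (u.coeff k) * (X ^ k * G) := by
        conv_lhs => rw [as_sum_range' u (j + 2 * g + 1) (by omega)]
        rw [Finset.sum_mul]
        refine Finset.sum_congr rfl fun k _ => ?_
        rw [← C_mul_X_pow_eq_monomial]
        ring
      have hWder : derivative (W0 * P) = u * G := by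
        rw [derivative_mul, hP', mul_zero, add_zero, hu, hG]
        ring
      have h0 : (u * G).coeff (N - 1) = 0 := by
        rw [← hWder]
        exact coeff_der' p _ hpN hN0
      rw [hsum, finsetSum_coeff, Finset.sum_range_succ, Finset.sum_eq_zero, zero_add,
        coeff_C_mul] at h0
      · exact (mul_eq_zero.mp h0).resolve_left hne'
      · intro k hk
        rw [Finset.mem_range] at hk
        rw [coeff_C_mul, ih k hk (by omega), mul_zero]
  -- step 3
  have hGc : ∀ k, M ≤ k → k < N → G.coeff k = 0 := by
    intro k hk hk'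
    have h1 := step2 (N - 1 - k) (by omega)
    rw [coeff_X_pow_mul', if_pos (by omega)] at h1
    rw [← h1]
    congr 1
    omega
  have hGd : ∀ k, N + M ≤ k → G.coeff k = 0 := by
    intro k hk
    apply coeff_eq_zero_of_natDegree_lt
    have : G.natDegree ≤ F.natDegree + P.natDegree := natDegree_mul_le
    omega
  obtain ⟨A, R, hGAR, hA, hR⟩ := split_poly G N M (by omega) hGd hGc
  -- step 4
  set E : K[X] := h ^ (q + 1) with hE
  have hEne : E ≠ 0 := pow_ne_zero _ hne
  have hEd : E.natDegree = (q + 1) * (2 * g + 1) := by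
    rw [hE, natDegree_pow, hdeg]
  have hEd' : E.natDegree = 2 * g * q + q + 2 * g + 1 := by
    rw [hEd]
    ring
  have hpow : ∀ g : K[X], derivative (g ^ p) = 0 := by
    intro g
    rw [derivative_pow, CharP.cast_eq_zero K p]
    simp
  have hXN : derivative (X ^ N : K[X]) = 0 := by
    rw [derivative_X_pow, (CharP.cast_eq_zero_iff K p N).mpr hpN]
    simp
  have hEG : E * G = h ^ p * P := by
    rw [hE, hG, hF, hp2]
    ring
  have hEG' : derivative (E * G) = 0 := by
    rw [hEG, derivative_mul, hpow, hP']
    simp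
  have hsplit : X ^ N * derivative (E * A) + derivative (E * R) = 0 := by
    rw [← hEG', hGAR]
    have h1 : E * (X ^ N * A + R) = X ^ N * (E * A) + E * R := by ring
    rw [h1, derivative_add, derivative_mul (f := X ^ N), hXN]
    ring
  have hERc : ∀ k, N + N ≤ k → (derivative (E * R)).coeff k = 0 := by
    intro k hk
    rw [coeff_derivative, coeff_eq_zero_of_natDegree_lt, zero_mul]
    by_cases hR0 : R = 0
    · rw [hR0, mul_zero, natDegree_zero]
      omega
    · have h1 : R.natDegree < M := by
        by_contra hcon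
        push Not at hcon
        exact hR0 (leadingCoeff_eq_zero.mp (hR _ hcon))
      have h2 : (E * R).natDegree ≤ E.natDegree + R.natDegree := natDegree_mul_le
      omega
  have hEA : derivative (E * A) = 0 := by
    by_contra hne0
    set k := (derivative (E * A)).natDegree with hk
    have h1 : k < N := by
      by_contra hcon
      push Not at hcon
      have h2 := hERc (k + N) (by omega)
      have h3 := congrArg (fun Q : K[X] => Q.coeff (k + N)) hsplit
      simp only [coeff_add, coeff_zero] at h3
      rw [h2, add_zero, coeff_X_pow_mul] at h3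
      exact hne0 (leadingCoeff_eq_zero.mp h3)
    have h2 : h ^ q ∣ derivative (E * A) := by
      refine ⟨C (((q + 1 : ℕ) : K)) * derivative h * A + h * derivative A, ?_⟩
      rw [hE, derivative_mul, derivative_pow (p := h)]
      simp only [Nat.add_sub_cancel]
      ring
    have h3 := natDegree_le_of_dvd h2 hne0
    rw [natDegree_pow, hdeg] at h3
    have h4 : q * (2 * g + 1) = 2 * g * q + q := by ring
    omega
  -- step 5
  have hA0 : A = 0 := by
    by_contra hA0
    have hdvd : h ^ q ∣ A := pow_dvd_of_der p hsep hne q (q + 1) A (by omega) (by omega) hEA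
    have h1 := natDegree_le_of_dvd hdvd hA0
    rw [natDegree_pow, hdeg] at h1
    have h4 : q * (2 * g + 1) = 2 * g * q + q := by ring
    exact hA0 (leadingCoeff_eq_zero.mp (hA _ (by omega)))
  -- step 6
  by_contra hP0
  have hG0 : G ≠ 0 := mul_ne_zero hFne hP0
  have h1 : G.natDegree = F.natDegree + P.natDegree := natDegree_mul hFne hP0
  rw [hA0, mul_zero, zero_add] at hGAR
  have h2 := hR G.natDegree (by omega)
  rw [← hGAR] at h2
  exact hG0 (leadingCoeff_eq_zero.mp h2)

end

theorem l_HWrank : L_HWrank := by
  intro F _ p _ _ g h hgp hdeg hsep c hc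
  have hp : p.Prime := Fact.out
  rcases Nat.eq_zero_or_pos g with hg0 | hg0
  · subst hg0
    funext i
    exact i.elim0
  obtain ⟨q, hq⟩ : ∃ q, p = 2 * q + 1 := by
    rcases hp.eq_two_or_odd' with h2 | ⟨q, hq⟩
    · omega
    · exact ⟨q, hq⟩
  have hq2 : (p - 1) / 2 = q := by omega
  set P : F[X] := ∑ i : Fin g, monomial (p * (g - 1 - (i : ℕ))) (c i) with hP
  have hP' : derivative P = 0 := by
    rw [hP, derivative_sum]
    refine Finset.sum_eq_zero fun i _ => ?_
    rw [derivative_monomial]
    have : ((p * (g - 1 - (i : ℕ)) : ℕ) : F) = 0 :=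
      (CharP.cast_eq_zero_iff F p _).mpr (dvd_mul_right _ _)
    rw [this, mul_zero, monomial_zero_right]
  have hPd : P.natDegree + p ≤ p * g := by
    have h1 : P.natDegree ≤ p * (g - 1) := by
      rw [hP]
      refine natDegree_sum_le_of_forall_le _ _ fun i _ => ?_
      refine (natDegree_monomial_le _).trans ?_
      exact Nat.mul_le_mul_left p (by omega)
    have h2 : p * (g - 1) + p = p * g := by
      obtain ⟨g', rfl⟩ : ∃ g', g = g' + 1 := ⟨g - 1, by omega⟩
      rw [Nat.add_sub_cancel]
      ring
    omega
  have hΛ : ∀ l < 2 * g, (X ^ l * (h ^ q * P)).coeff (p * g - 1) = 0 := by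
    intro l hl
    have h1 := congrFun hc ⟨l, hl⟩
    rw [Matrix.vecMul, dotProduct] at h1
    simp only [Yh, Matrix.of_apply, Pi.zero_apply, hq2] at h1
    rw [← h1, hP, Finset.mul_sum, Finset.mul_sum, finsetSum_coeff]
    refine Finset.sum_congr rfl fun i _ => ?_
    have h2 : X ^ l * (h ^ q * monomial (p * (g - 1 - (i : ℕ))) (c i)) =
        C (c i) * (X ^ (p * (g - 1 - (i : ℕ))) * (X ^ l * h ^ q)) := by
      rw [← C_mul_X_pow_eq_monomial]
      ring
    rw [h2, coeff_C_mul, coeff_X_pow_mul']
    have h3 : p * (g - 1 - (i : ℕ)) + p * ((i : ℕ) + 1) = p * g := by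
      rw [← mul_add]
      congr 1
      omega
    have h4 : 0 < p * ((i : ℕ) + 1) := Nat.mul_pos hp.pos (Nat.succ_pos _)
    rw [if_pos (by omega)]
    congr 2
    omega
  have hP0 : P = 0 := core p hq (by omega) (by omega) h hdeg hsep P hP' hPd hΛ
  funext i
  have h1 : P.coeff (p * (g - 1 - (i : ℕ))) = c i := by
    rw [hP, finsetSum_coeff, Finset.sum_eq_single i]
    · rw [coeff_monomial, if_pos rfl]
    · intro b _ hb
      rw [coeff_monomial, if_neg]
      intro h
      apply hb
      have h5 := Nat.eq_of_mul_eq_mul_left hp.pos h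
      ext
      omega
    · intro h
      exact absurd (Finset.mem_univ i) h
  rw [← h1, hP0, coeff_zero]
  rfl

end Pool.Agent.Helper18.BL
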